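import Pool.Agent.Helper24.KF.TD

/-!
# Defects with values in a commutative group
-/

set_option autoImplicit false
set_option linter.unusedSectionVars false

open CategoryTheory AlgebraicGeometry MvPolynomial Pool.Agent.Y116.UV Pool.Agent.Helper62.EC

namespace Pool.Agent.Helper24.KP

open Pool.Agent.Helper24.KE (loc_equiv map_span_one mul_le mul_mem V U)

/-- `Q X c`: the defect of `X` is `c`. It is multiplicative for closed-open decompositions. -/
structure DfcG {R : Type} [CommRing R] (sep : Prop) {G : Type*} [CommGroup G]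
    (Q : Sch R → G → Prop) : Prop where
  iso : ∀ {X Y : Sch R} {c : G}, FT sep X → Nonempty (X ≅ Y) → Q X c → Q Y c
  total : ∀ {Z X U : Sch R} (i : Z ⟶ X) (j : U ⟶ X) {a b : G}, FT sep X → IsTriple i j →
    Q Z a → Q U b → Q X (a * b)
  opened : ∀ {Z X U : Sch R} (i : Z ⟶ X) (j : U ⟶ X) {a b : G}, FT sep X → IsTriple i j →
    Q Z a → Q X b → Q U (b / a)
  closed : ∀ {Z X U : Sch R} (i : Z ⟶ X) (j : U ⟶ X) {a b : G}, FT sep X → IsTriple i j →
    Q X a → Q U b → Q Z (a / b)
  uniq : ∀ {X : Sch R} {c c' : G}, Q X c → Q X c' → c = c'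

section general

variable {R : Type} [CommRing R] {sep : Prop} {G : Type*} [CommGroup G] {Q : Sch R → G → Prop}
  (hQ : DfcG sep Q)

include hQ

/-- The schemes with trivial defect. -/
theorem DfcG.cls : Cls sep fun X => Q X 1 where
  iso hX e h := hQ.iso hX e h
  total i j hX ht h1 h2 := by
    have := hQ.total i j hX ht h1 h2
    rwa [mul_one] at this
  opened i j hX ht h1 h2 := by
    have := hQ.opened i j hX ht h1 h2
    rwa [div_one] at this
  closed i j hX ht h1 h2 := by
    have := hQ.closed i j hX ht h1 h2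
    rwa [div_one] at this

lemma isoG {A B : Type} [CommRing A] [CommRing B] [Algebra R A] [Algebra R B]
    [Algebra.FiniteType R A] (e : A ≃ₐ[R] B) {c : G} (h : Q (aff R A) c) : Q (aff R B) c :=
  hQ.iso (ft_aff sep) ⟨(affIso e).symm⟩ h

section split

variable {A : Type} [CommRing A] [Algebra R A] [Algebra.FiniteType R A]

lemma totalG (w : A) {a b : G} (h1 : Q (aff R (A ⧸ Ideal.span {w})) a)
    (h2 : Q (aff R (Localization.Away w)) b) : Q (aff R A) (a * b) :=
  hQ.total _ _ (ft_aff sep) (triple_away w) h1 h2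

lemma openG (w : A) {a b : G} (h1 : Q (aff R (A ⧸ Ideal.span {w})) a) (h2 : Q (aff R A) b) :
    Q (aff R (Localization.Away w)) (b / a) :=
  hQ.opened _ _ (ft_aff sep) (triple_away w) h1 h2

lemma closedG (w : A) {a b : G} (h1 : Q (aff R A) a) (h2 : Q (aff R (Localization.Away w)) b) :
    Q (aff R (A ⧸ Ideal.span {w})) (a / b) :=
  hQ.closed _ _ (ft_aff sep) (triple_away w) h1 h2

lemma quotG (I : Ideal A) (a : A) {c : G} (h : Q (aff R (A ⧸ (I ⊔ Ideal.span {a}))) c) :
    Q (aff R ((A ⧸ I) ⧸ Ideal.span {Ideal.Quotient.mk I a})) c := by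
  rw [← map_span_one (R := R)]
  exact isoG hQ (DoubleQuot.quotQuotEquivQuotSupₐ R I (Ideal.span {a})).symm h

/-- The union of two hypersurfaces. -/
theorem two_totalG (F H : A) {a b d : G} (h1 : Q (aff R (A ⧸ Ideal.span {F})) a)
    (h2 : Q (aff R (A ⧸ Ideal.span {H})) b)
    (h3 : Q (aff R (A ⧸ (Ideal.span {H} ⊔ Ideal.span {F}))) d) :
    Q (aff R (A ⧸ Ideal.span {F * H})) (a * b / d) := by
  have h4 := openG hQ _ (quotG hQ _ _ h3) h2
  obtain ⟨e⟩ := loc_equiv (R := R) (Ideal.span {H}) (Ideal.span {F * H}) (mul_le F H) F (mul_mem F H)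
  have : Algebra.FiniteType R (Localization.Away (Ideal.Quotient.mk (Ideal.span {H}) F)) :=
    Algebra.FiniteType.trans (S := A ⧸ Ideal.span {H}) inferInstance inferInstance
  have h5 := isoG hQ e.symm h4
  have h6 : Q (aff R ((A ⧸ Ideal.span {F * H}) ⧸
      Ideal.span {Ideal.Quotient.mk (Ideal.span {F * H}) F})) a := by
    apply quotG hQ
    rwa [sup_eq_right.mpr]
    rw [Ideal.span_singleton_le_span_singleton]
    exact Dvd.intro H rfl
  have h7 := totalG hQ _ h6 h5
  rwa [show a * (b / d) = a * b / d by rw [mul_div_assoc]] at h7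

end split

end general

section field

variable {k : Type} [Field k] {sep : Prop} {G : Type*} [CommGroup G] {Q : Sch k → G → Prop}
  (hQ : DfcG sep Q)
  (hs : ∀ m : ℕ, Q (aff k (MvPolynomial (Fin m) k)) 1)

include hQ hs

lemma U_of_VG {m : ℕ} {F : MvPolynomial (Fin m) k} {c : G} (h : Q (V F) c) : Q (U F) c⁻¹ := by
  have h1 := openG hQ F h (hs m)
  rwa [one_div] at h1

lemma V_of_UG {m : ℕ} {F : MvPolynomial (Fin m) k} {c : G} (h : Q (U F) c) : Q (V F) c⁻¹ := by
  have h1 := closedG hQ F (hs m) h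
  rwa [one_div] at h1

/-- Disjoint hypersurfaces. -/
lemma disjG {m : ℕ} {F H : MvPolynomial (Fin m) k} (hFH : Ideal.span {H} ⊔ Ideal.span {F} = ⊤)
    {a b : G} (h1 : Q (V F) a) (h2 : Q (V H) b) : Q (V (F * H)) (a * b) := by
  have h3 : Q (aff k (MvPolynomial (Fin m) k ⧸ (Ideal.span {H} ⊔ Ideal.span {F}))) 1 := by
    refine p_empty hQ.cls (hs 0) _ ?_
    rw [hFH]
    exact Ideal.Quotient.subsingleton_iff.mpr rfl
  have h4 := two_totalG hQ F H h1 h2 h3
  rwa [div_one] at h4

end field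

end Pool.Agent.Helper24.KP
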