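import Pool.Agent.Helper24.KP.G
import Pool.Agent.Helper24.KF.NoBase
import Pool.Agent.Helper62.DB.Dbl

/-!
# Signs of weight complexes
-/

set_option autoImplicit false
set_option linter.unusedSectionVars false

open CategoryTheory Limits AlgebraicGeometry MvPolynomial Pool.Agent.Y116.UV
  Pool.Agent.Q282.UM Pool.Agent.Q282.UK Pool.Agent.Helper62.EC Pool.Agent.Helper62.DB
  Pool.Agent.Helper24.KD Pool.Agent.Helper24.KF

open Pool.Agent.Helper24.KZ (Bdd SumOf Mult Rep Smd mulSupport_sub)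

open Pool.Agent.Helper24.KE (V U isoQ)

namespace Pool.Agent.Helper24.KP

universe v u

section

variable {C : Type u} [Category.{v} C] [Preadditive C] (F : C ⥤ ModuleCat.{0} ℚ) (w : C → ℤˣ)

/-- The space `F(M)` has finite dimension. -/
def FD (M : C) : Prop := Module.Finite ℚ (F.obj M)

/-- The sign `w(M) (-1)^{dim F(M)}`. -/
noncomputable def sgn (M : C) : ℤˣ := w M * (-1) ^ Module.finrank ℚ (F.obj M)

variable {F w} [HasBinaryBiproducts C] [HasZeroObject C] [F.Additive]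
  (hw : Mult (fun _ : C => True) w)

include hw

theorem mult_sgn : Mult (FD F) (sgn F w) where
  summand := by
    rintro M N ⟨s, r, h⟩ hN
    have h1 : F.map s ≫ F.map r = 𝟙 _ := by rw [← F.map_comp, h, F.map_id]
    have hN' : Module.Finite ℚ (F.obj N) := hN
    exact Module.Finite.of_surjective (F.map r).hom fun x =>
      ⟨(F.map s).hom x, congrArg (fun g => g.hom x) h1⟩
  zero M h := by
    have h1 : Subsingleton (F.obj M) := ModuleCat.subsingleton_of_isZero (F.map_isZero h)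
    change Module.Finite ℚ (F.obj M)
    infer_instance
  sum M N hM hN := (finite_sum (F := F) hM hN).1
  val_iso := by
    rintro M N ⟨e⟩ _
    unfold sgn
    rw [hw.val_iso ⟨e⟩ trivial, finrank_iso ⟨F.mapIso e⟩]
  val_sum M N hM hN := by
    unfold sgn
    rw [hw.val_sum M N trivial trivial, (finite_sum (F := F) hM hN).2, pow_add]
    exact mul_mul_mul_comm _ _ _ _

lemma rep_single {M : C} (hM : FD F M) : Rep (FD F) (sgn F w) (inZero M) (sgn F w M) := by
  have hf := mult_sgn (F := F) hw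
  let K := (HomologicalComplex.single C (ComplexShape.up ℤ) 0).obj M
  have e0 : K.X 0 ≅ M := HomologicalComplex.singleObjXSelf (ComplexShape.up ℤ) 0 M
  have hz : ∀ i : ℤ, (i < 0 ∨ 0 < i) → IsZero (K.X i) := fun i hi =>
    HomologicalComplex.isZero_single_obj_X (ComplexShape.up ℤ) 0 M i (by omega)
  have h0 : FD F (K.X 0) := hf.iso ⟨e0.symm⟩ hM
  refine ⟨K, ⟨0, 0, hz⟩, fun i => ?_, ⟨Iso.refl _⟩, ?_⟩
  · rcases eq_or_ne i 0 with h5 | h5
    · rw [h5]
      exact h0
    · exact hf.zero _ (hz i (by omega))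
  · have h4 : Pool.Agent.Helper24.KZ.euler (sgn F w) K = ∏ i ∈ Finset.Icc (0 : ℤ) 0,
        sgn F w (K.X i) ^ ((i.negOnePow : ℤˣ) : ℤ) :=
      finprod_eq_prod_of_mulSupport_subset _ (mulSupport_sub hf hz)
    rw [h4, Finset.Icc_self, Finset.prod_singleton, Int.negOnePow_zero, Units.val_one, zpow_one]
    exact hf.val_iso ⟨e0⟩ h0

end

section schemes

variable {C : Type u} [Category.{v} C] [Preadditive C] [HasBinaryBiproducts C] [HasZeroObject C]
  [HasFiniteBiproducts C] {F : C ⥤ ModuleCat.{0} ℚ} [F.Additive] {w : C → ℤˣ}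
  {k : Type} [Field k] {D : Weights k C}

variable (F w D) in
/-- The sign of the twist by `n` of the weight complex of `X` is `g`: there is a bounded complex `L` which
represents `W(X)(n)`, such that the spaces `F(L^i)` have finite dimension and the alternating product of the
signs `w(L^i) (-1)^{dim F(L^i)}` is `g`. -/
def QS (n : ℤ) (X : Sch k) (g : ℤˣ) : Prop :=
  Rep (FD F) (sgn F w) (onHK (D.tw n) (D.W X)) g

variable (hw : Mult (fun _ : C => True) w) (hD : IsWeightComplex D)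

include hw hD

theorem dfcS (n : ℤ) : DfcG True (QS F w D n) where
  iso hX e h := by
    obtain ⟨e⟩ := hD.iso hX e
    exact h.iso ⟨((D.tw n).mapHomotopyCategory (ComplexShape.up ℤ)).mapIso e⟩
  total i j a b h ht hZ hU := by
    obtain ⟨x, y, z, h3⟩ := onHK_triangle (D.tw n) (hD.triangle i j h ht)
    have h1 := Rep.mid (mult_sgn hw) h3 hU hZ
    rwa [mul_comm] at h1
  opened i j a b h ht hZ hX := by
    obtain ⟨x, y, z, h3⟩ := onHK_triangle (D.tw n) (hD.triangle i j h ht)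
    exact Rep.first (mult_sgn hw) h3 hX hZ
  closed i j a b h ht hX hU := by
    obtain ⟨x, y, z, h3⟩ := onHK_triangle (D.tw n) (hD.triangle i j h ht)
    exact Rep.third (mult_sgn hw) h3 hU hX
  uniq h1 h2 := Rep.unique (mult_sgn hw) h1 h2

lemma twistS {X Y : Sch k} {m : ℤ} (e : Nonempty (D.W X ≅ onHK (D.tw m) (D.W Y))) (n : ℤ)
    (g : ℤˣ) : QS F w D n X g ↔ QS F w D (m + n) Y g := by
  obtain ⟨e⟩ := e
  obtain ⟨e1⟩ := hD.tw_add m n
  obtain ⟨e2⟩ := onHK_comp e1 (D.W Y)
  have h1 : onHK (D.tw n) (D.W X) ≅ onHK (D.tw (m + n)) (D.W Y) :=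
    ((D.tw n).mapHomotopyCategory (ComplexShape.up ℤ)).mapIso e ≪≫ e2.symm
  exact ⟨fun h => h.iso ⟨h1⟩, fun h => h.iso ⟨h1.symm⟩⟩

lemma bundleS {B : Type} [CommRing B] [Algebra k B] [Algebra.FiniteType k B] {m : ℕ}
    {g : Fin m → B} {U : Sch k} {j : U ⟶ aff k B} (hj : IsComplementOf g j) (n : ℤ) (c : ℤˣ) :
    QS F w D (n + (m - 1)) (jouS g) c ↔ QS F w D n U c := by
  rw [twistS hw hD (hD.bundle B m g U j hj)]
  rw [show (1 - (m : ℤ)) + (n + (m - 1)) = n by ring]

/-- The affine spaces. -/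
lemma spaceS (hp : ∀ n, QS F w D n (aff k k) 1) (n : ℤ) (r : ℕ) :
    QS F w D n (aff k (MvPolynomial (Fin r) k)) 1 := by
  have h1 := (bundleS hw hD (compl_id (k := k) k r) (n - r) 1).mpr (hp _)
  have h2 : n - r + (((r + 1 : ℕ) : ℤ) - 1) = n := by push_cast; ring
  rw [h2] at h1
  exact isoG (dfcS hw hD n) (jouOne k r) h1

/-- The affine line over a scheme. -/
lemma lineS {B : Type} [CommRing B] [Algebra k B] [Algebra.FiniteType k B] (n : ℤ) (c : ℤˣ) :
    QS F w D (n + 1) (aff k (Polynomial B)) c ↔ QS F w D n (aff k B) c := by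
  have h1 := bundleS (F := F) hw hD (compl_id (k := k) B 1) n c
  have h2 : n + (((1 + 1 : ℕ) : ℤ) - 1) = n + 1 := by norm_num
  rw [h2] at h1
  rw [← h1]
  have e : Jou (f1 B 1) ≃ₐ[k] Polynomial B :=
    ((jouOne B 1).trans (MvPolynomial.uniqueAlgEquiv B (Fin 1))).restrictScalars k
  constructor
  · intro h3
    exact isoG (dfcS hw hD (n + 1)) e.symm h3
  · intro h3
    have : Algebra.FiniteType k (Jou (f1 B 1)) :=
      Algebra.FiniteType.trans (S := B) inferInstance inferInstance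
    exact isoG (dfcS hw hD (n + 1)) e h3

/-- The double cover `t ^ 2 - t = y g` and the hypersurface `g = 0`. -/
theorem dblS' {B : Type} [CommRing B] [Algebra k B] [Algebra.FiniteType k B] (g : B) (n : ℤ)
    (hB : QS F w D n (aff k B) 1) :
    QS F w D (n + 1) (aff k (Db g)) 1 ↔ QS F w D n (aff k (B ⧸ Ideal.span {g})) 1 := by
  have h1 := dbl_iff (dfcS (F := F) hw hD (n + 1)).cls g ((lineS hw hD n 1).mpr hB)
  exact h1.trans (lineS hw hD n 1)

/-- Smooth projective schemes. -/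
lemma projS {n : ℤ} {X : Sch k} (hX : IsSmoothProjective X)
    (hF : FD F ((D.tw n).obj (D.h X))) {g : ℤˣ} (h : QS F w D n X g) :
    sgn F w ((D.tw n).obj (D.h X)) = g := by
  obtain ⟨e⟩ := hD.projective X hX
  have h1 : Rep (FD F) (sgn F w) (inZero ((D.tw n).obj (D.h X))) g := by
    refine Rep.iso ⟨((D.tw n).mapHomotopyCategory (ComplexShape.up ℤ)).mapIso e ≪≫ ?_⟩ h
    exact (HomotopyCategory.quotient C (ComplexShape.up ℤ)).mapIso
      ((HomologicalComplex.singleMapHomologicalComplex (D.tw n) (ComplexShape.up ℤ) 0).app (D.h X))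
  exact Rep.unique (mult_sgn hw) (rep_single hw hF) h1

omit hD [HasFiniteBiproducts C] in
lemma sum_of {S : C → Prop} {P : ℤˣ → Prop} (h1 : P 1) (hm : ∀ a b, P a → P b → P (a * b))
    (T : C ⥤ C) [T.Additive] (hS : ∀ M, S M → FD F (T.obj M) ∧ P (sgn F w (T.obj M))) {M : C}
    (hM : SumOf S M) : FD F (T.obj M) ∧ P (sgn F w (T.obj M)) := by
  have hf := mult_sgn (F := F) hw
  induction hM with
  | zero M h =>
    have h2 := T.map_isZero h
    refine ⟨hf.zero _ h2, ?_⟩
    rw [hf.val_zero h2]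
    exact h1
  | of M h => exact hS M h
  | sum M N _ _ h2 h3 =>
    have : PreservesBinaryBiproduct M N T :=
      (preservesBinaryBiproducts_of_preservesBiproducts T).preserves
    have e : Nonempty (T.obj M ⊞ T.obj N ≅ T.obj (M ⊞ N)) := ⟨(T.mapBiprod M N).symm⟩
    have h4 := hf.sum _ _ h2.1 h3.1
    refine ⟨hf.iso e h4, ?_⟩
    rw [← hf.val_iso e h4, hf.val_sum _ _ h2.1 h3.1]
    exact hm _ _ h2.2 h3.2
  | iso M N e _ h =>
    have e' : Nonempty (T.obj M ≅ T.obj N) := ⟨T.mapIso e.some⟩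
    refine ⟨hf.iso e' h.1, ?_⟩
    rw [← hf.val_iso e' h.1]
    exact h.2

/-- The signs exist, and they are products of signs of smooth projective schemes. -/
theorem existS {P : Subgroup ℤˣ} {n : ℤ} {N : ℕ} (h : ∀ Y : Sch k, IsSmoothProjective Y →
    topologicalKrullDim Y.left ≤ N → FD F ((D.tw n).obj (D.h Y)) ∧
      sgn F w ((D.tw n).obj (D.h Y)) ∈ P) (X : Sch k)
    (hX : FT True X) (hN : topologicalKrullDim X.left ≤ N) : ∃ g ∈ P, QS F w D n X g := by
  have hf := mult_sgn (F := F) hw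
  obtain ⟨K, hb, ⟨e⟩, hK⟩ := hD.terms X hX N hN
  have h1 : ∀ i, FD F ((D.tw n).obj (K.X i)) ∧ sgn F w ((D.tw n).obj (K.X i)) ∈ P := fun i =>
    sum_of hw (P := fun a => a ∈ P) P.one_mem (fun a b => P.mul_mem) (D.tw n) (by
      rintro M ⟨Y, a1, a2, ⟨e⟩⟩
      have h2 := h Y a1 a2
      have e' : Nonempty ((D.tw n).obj (D.h Y) ≅ (D.tw n).obj M) := ⟨(D.tw n).mapIso e⟩
      refine ⟨hf.iso e' h2.1, ?_⟩
      rw [← hf.val_iso e' h2.1]
      exact h2.2) (hK i)
  let L : CochainComplex C ℤ := ((D.tw n).mapHomologicalComplex (ComplexShape.up ℤ)).obj K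
  have hLb : Bdd L := by
    obtain ⟨a, b, hz⟩ := hb
    exact ⟨a, b, fun i hi => (D.tw n).map_isZero (hz i hi)⟩
  refine ⟨Pool.Agent.Helper24.KZ.euler (sgn F w) L, ?_, L, hLb, fun i => (h1 i).1,
    ⟨((D.tw n).mapHomotopyCategory (ComplexShape.up ℤ)).mapIso e⟩, rfl⟩
  exact finprod_induction (· ∈ P) P.one_mem (fun _ _ => P.mul_mem)
    fun i => P.zpow_mem (h1 i).2 _

end schemes

end Pool.Agent.Helper24.KP
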